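import Pool.Agent.Helper6.SW.Defs

/-!
# BV-5: large conductors, from Vaughan's identity and the bounds of type I and type II
-/

namespace Pool.Agent.Helper14.SW

open Finset DirichletCharacter Pool.Agent.Helper6.ER Pool.Agent.Helper6.SW

theorem prim_card_le (f : ℕ) [NeZero f] : (prim f).card ≤ f.totient := by
  classical
  have h1 : (prim f).card ≤ (Finset.univ : Finset (DirichletCharacter ℂ f)).card :=
    Finset.card_le_univ _
  rw [Finset.card_univ, ← Nat.card_eq_fintype_card,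
    DirichletCharacter.card_eq_totient_of_hasEnoughRootsOfUnity] at h1
  exact h1

theorem prim_ne_one {f : ℕ} (hf : 2 ≤ f) {ψ : DirichletCharacter ℂ f} (h : ψ ∈ prim f) :
    ψ ≠ 1 := by
  have : NeZero f := ⟨by omega⟩
  rintro rfl
  rw [mem_prim, isPrimitive_def, conductor_one] at h
  omega

theorem tent_eq_zero {V v : ℝ} (hV : 0 < V) (h : V ≤ |v|) : tent V v = 0 := by
  unfold tent
  apply max_eq_left
  rw [sub_nonpos, one_le_div hV]
  exact h

theorem om_eq_zero {V X : ℝ} {k : ℕ} (hV : 0 < V) (hX : 2 * V + 1 ≤ Real.log X) {n : ℕ}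
    (hn : (n : ℝ) ≤ X ^ (1 / 8 : ℝ)) (hX0 : 0 < X) : om V k X n = 0 := by
  unfold om
  rw [tent_eq_zero hV, mul_zero]
  rcases Nat.eq_zero_or_pos n with h | h
  · rw [h, Nat.cast_zero, Real.log_zero, zero_sub, abs_neg]
    exact le_trans (by linarith) (le_abs_self _)
  · have h1 : Real.log n ≤ 1 / 8 * Real.log X := by
      rw [← Real.log_rpow hX0]
      exact Real.log_le_log (by exact_mod_cast h) hn
    rw [abs_sub_comm]
    refine le_trans ?_ (le_abs_self _)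
    linarith

theorem stLarge_of (h1 : StVaughan) (h2 : StTypeI) (h3 : StTypeII) : StLarge := by
  intro V k hV
  obtain ⟨C1, X1, hC1, hI⟩ := h2 V k hV
  obtain ⟨C2, X2, hC2, hII⟩ := h3 V k hV
  refine ⟨2 * C1 + C2, max (max X1 X2) (Real.exp (2 * V + 1)), by positivity, ?_⟩
  intro X hX F hF
  have hX1 : X1 ≤ X := (le_max_left _ _).trans ((le_max_left _ _).trans hX)
  have hX2 : X2 ≤ X := (le_max_right _ _).trans ((le_max_left _ _).trans hX)
  have hX3 : Real.exp (2 * V + 1) ≤ X := (le_max_right _ _).trans hX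
  have hX0 : 0 < X := (Real.exp_pos _).trans_le hX3
  have hL : 2 * V + 1 ≤ Real.log X := by
    rw [← Real.log_exp (2 * V + 1)]
    exact Real.log_le_log (Real.exp_pos _) hX3
  have hL1 : 1 ≤ Real.log X := by linarith
  have hXone : 1 ≤ X := by
    have : Real.exp 0 ≤ Real.exp (2 * V + 1) := Real.exp_le_exp.2 (by linarith)
    rw [Real.exp_zero] at this
    linarith
  by_cases hF2 : F < 2
  · rw [Finset.Icc_eq_empty (by omega), Finset.sum_empty]
    positivity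
  push Not at hF2
  set U : ℕ := ⌊X ^ (1 / 8 : ℝ)⌋₊ with hU
  have hU1 : 1 ≤ U := Nat.le_floor (by
    rw [Nat.cast_one]
    exact Real.one_le_rpow hXone (by norm_num))
  have hUle : (U : ℝ) ≤ X ^ (1 / 8 : ℝ) := Nat.floor_le (by positivity)
  have hFU : F ^ 2 ≤ U := by
    apply Nat.le_floor
    push_cast
    calc (F : ℝ) ^ 2 ≤ (X ^ (1 / 32 : ℝ)) ^ 2 := by gcongr
      _ = X ^ (1 / 16 : ℝ) := by
        rw [← Real.rpow_natCast, ← Real.rpow_mul hX0.le]
        norm_num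
      _ ≤ X ^ (1 / 8 : ℝ) := Real.rpow_le_rpow_of_exponent_le hXone (by norm_num)
  have hU4 : (U : ℝ) ≤ X ^ (1 / 4 : ℝ) :=
    hUle.trans (Real.rpow_le_rpow_of_exponent_le hXone (by norm_num))
  have hUsq : ((U ^ 2 : ℕ) : ℝ) ≤ X ^ (1 / 4 : ℝ) := by
    push_cast
    calc (U : ℝ) ^ 2 ≤ (X ^ (1 / 8 : ℝ)) ^ 2 := by gcongr
      _ = X ^ (1 / 4 : ℝ) := by
        rw [← Real.rpow_natCast, ← Real.rpow_mul hX0.le]
        norm_num
  obtain ⟨v, u, hv, hu, hid⟩ := h1 U hU1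
  -- the bound for one character
  have key : ∀ f ∈ Icc 2 F, ∀ ψ ∈ prim f, ‖PsiW V k X ψ‖ ≤
      2 * C1 * f * (Real.log X) ^ (k + 1) * X ^ (-(3 / 4) : ℝ) +
      ‖∑ a ∈ Ioc U (NX V X), ∑ l ∈ Ioc U (NX V X / a),
        (((ArithmeticFunction.moebius a : ℤ) : ℝ) : ℂ) * ((u l : ℝ) : ℂ) *
        (ψ ((a * l : ℕ) : ZMod f) * ((om V k X (a * l) : ℝ) : ℂ))‖ := by
    intro f hf ψ hψ
    rw [Finset.mem_Icc] at hf
    have : NeZero f := ⟨by omega⟩
    have hψ1 : ψ ≠ 1 := prim_ne_one hf.1 hψ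
    have h0 : PsiW V k X ψ = ∑ n ∈ Icc 1 (NX V X),
        ((ArithmeticFunction.vonMangoldt n : ℝ) : ℂ) *
          (ψ (n : ZMod f) * ((om V k X n : ℝ) : ℂ)) := by
      unfold PsiW
      exact Finset.sum_congr rfl fun n _ => mul_assoc _ _ _
    rw [h0, hid (NX V X) (fun n => ψ (n : ZMod f) * ((om V k X n : ℝ) : ℂ)) (by
      intro n hn
      have hn' : (n : ℝ) ≤ X ^ (1 / 8 : ℝ) := le_trans (by exact_mod_cast hn) hUle
      rw [om_eq_zero hV hL hn' hX0]
      simp)]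
    have hb : ∀ b ∈ Icc 1 U, ‖((ArithmeticFunction.moebius b : ℤ) : ℂ) *
        ∑ m ∈ Icc 1 (NX V X / b), ((Real.log m : ℝ) : ℂ) *
          (ψ ((b * m : ℕ) : ZMod f) * ((om V k X (b * m) : ℝ) : ℂ))‖ ≤
        C1 * f * (Real.log X) ^ (k + 1) / X := by
      intro b hb
      rw [Finset.mem_Icc] at hb
      have hb2 : (b : ℝ) ≤ X ^ (1 / 2 : ℝ) := by
        refine le_trans (by exact_mod_cast hb.2) (hU4.trans ?_)
        exact Real.rpow_le_rpow_of_exponent_le hXone (by norm_num)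
      rw [norm_mul]
      have hmu : ‖((ArithmeticFunction.moebius b : ℤ) : ℂ)‖ ≤ 1 := by
        rw [Complex.norm_intCast]
        exact_mod_cast ArithmeticFunction.abs_moebius_le_one
      calc _ ≤ 1 * (C1 * f * (Real.log X) ^ (k + 1) / X) :=
            mul_le_mul hmu (hI X hX1 f ψ hψ1 b hb.1 hb2).1 (norm_nonneg _) zero_le_one
        _ = _ := one_mul _
    have hc : ∀ c ∈ Icc 1 (U ^ 2), ‖((v c : ℝ) : ℂ) *
        ∑ m ∈ Icc 1 (NX V X / c),
          (ψ ((c * m : ℕ) : ZMod f) * ((om V k X (c * m) : ℝ) : ℂ))‖ ≤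
        C1 * f * (Real.log X) ^ (k + 1) / X := by
      intro c hc
      rw [Finset.mem_Icc] at hc
      have hc1 : (c : ℝ) ≤ X ^ (1 / 4 : ℝ) := le_trans (by exact_mod_cast hc.2) hUsq
      have hc2 : (c : ℝ) ≤ X ^ (1 / 2 : ℝ) :=
        hc1.trans (Real.rpow_le_rpow_of_exponent_le hXone (by norm_num))
      have hc0 : (0 : ℝ) < c := by exact_mod_cast hc.1
      have hvc : ‖((v c : ℝ) : ℂ)‖ ≤ Real.log X := by
        rw [Complex.norm_real, Real.norm_eq_abs]
        refine (hv c).trans (Real.log_le_log hc0 (hc1.trans ?_))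
        calc X ^ (1 / 4 : ℝ) ≤ X ^ (1 : ℝ) :=
              Real.rpow_le_rpow_of_exponent_le hXone (by norm_num)
          _ = X := Real.rpow_one X
      rw [norm_mul]
      calc _ ≤ Real.log X * (C1 * f * (Real.log X) ^ k / X) :=
            mul_le_mul hvc (hI X hX1 f ψ hψ1 c hc.1 hc2).2 (norm_nonneg _) (by linarith)
        _ = _ := by ring
    have hnb := (norm_sum_le_of_le _ hb)
    have hnc := (norm_sum_le_of_le _ hc)
    rw [Finset.sum_const, nsmul_eq_mul, Nat.card_Icc, Nat.add_sub_cancel] at hnb hnc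
    refine (norm_add_le _ _).trans (add_le_add ((norm_sub_le _ _).trans ?_) (le_of_eq ?_))
    · refine (add_le_add hnb hnc).trans ?_
      have e1 : (U : ℝ) ≤ X ^ (1 / 4 : ℝ) := hU4
      have e2 : X ^ (1 / 4 : ℝ) / X = X ^ (-(3 / 4) : ℝ) := by
        rw [← Real.rpow_sub_one hX0.ne']
        norm_num
      calc (U : ℝ) * (C1 * f * (Real.log X) ^ (k + 1) / X) +
            ((U ^ 2 : ℕ) : ℝ) * (C1 * f * (Real.log X) ^ (k + 1) / X)
          ≤ X ^ (1 / 4 : ℝ) * (C1 * f * (Real.log X) ^ (k + 1) / X) +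
            X ^ (1 / 4 : ℝ) * (C1 * f * (Real.log X) ^ (k + 1) / X) := by
            gcongr
        _ = 2 * C1 * f * (Real.log X) ^ (k + 1) * (X ^ (1 / 4 : ℝ) / X) := by ring
        _ = _ := by rw [e2]
    · congr 1
  -- summation
  have hTI : ∑ f ∈ Icc 2 F, ((f : ℝ) / f.totient) * ∑ ψ ∈ prim f,
      (2 * C1 * f * (Real.log X) ^ (k + 1) * X ^ (-(3 / 4) : ℝ)) ≤
      2 * C1 * (Real.log X) ^ (k + 4) := by
    have hterm : ∀ f ∈ Icc 2 F, ((f : ℝ) / f.totient) * ∑ ψ ∈ prim f,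
        (2 * C1 * f * (Real.log X) ^ (k + 1) * X ^ (-(3 / 4) : ℝ)) ≤
        (F : ℝ) ^ 2 * (2 * C1 * (Real.log X) ^ (k + 1) * X ^ (-(3 / 4) : ℝ)) := by
      intro f hf
      rw [Finset.mem_Icc] at hf
      have : NeZero f := ⟨by omega⟩
      have htot : (0 : ℝ) < f.totient := by
        exact_mod_cast Nat.totient_pos.2 (by omega)
      have hcard : ((prim f).card : ℝ) ≤ f.totient := by exact_mod_cast prim_card_le f
      have hfF : (f : ℝ) ≤ F := by exact_mod_cast hf.2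
      rw [Finset.sum_const, nsmul_eq_mul]
      calc (f : ℝ) / f.totient * ((prim f).card *
            (2 * C1 * f * (Real.log X) ^ (k + 1) * X ^ (-(3 / 4) : ℝ)))
          ≤ (f : ℝ) / f.totient * (f.totient *
            (2 * C1 * f * (Real.log X) ^ (k + 1) * X ^ (-(3 / 4) : ℝ))) := by gcongr
        _ = (f : ℝ) ^ 2 * (2 * C1 * (Real.log X) ^ (k + 1) * X ^ (-(3 / 4) : ℝ)) := by
            field_simp
        _ ≤ _ := by gcongr
    refine (Finset.sum_le_sum hterm).trans ?_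
    rw [Finset.sum_const, nsmul_eq_mul, Nat.card_Icc]
    have hcard2 : ((F + 1 - 2 : ℕ) : ℝ) ≤ F := by
      have : F + 1 - 2 ≤ F := by omega
      exact_mod_cast this
    have hF3 : (F : ℝ) ^ 3 * X ^ (-(3 / 4) : ℝ) ≤ 1 := by
      calc (F : ℝ) ^ 3 * X ^ (-(3 / 4) : ℝ) ≤ (X ^ (1 / 32 : ℝ)) ^ 3 * X ^ (-(3 / 4) : ℝ) := by
            gcongr
        _ = X ^ (-(21 / 32) : ℝ) := by
            rw [← Real.rpow_natCast, ← Real.rpow_mul hX0.le, ← Real.rpow_add hX0]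
            norm_num
        _ ≤ 1 := Real.rpow_le_one_of_one_le_of_nonpos hXone (by norm_num)
    calc ((F + 1 - 2 : ℕ) : ℝ) *
          ((F : ℝ) ^ 2 * (2 * C1 * (Real.log X) ^ (k + 1) * X ^ (-(3 / 4) : ℝ)))
        ≤ (F : ℝ) * ((F : ℝ) ^ 2 * (2 * C1 * (Real.log X) ^ (k + 1) * X ^ (-(3 / 4) : ℝ))) := by
          gcongr
      _ = 2 * C1 * (Real.log X) ^ (k + 1) * ((F : ℝ) ^ 3 * X ^ (-(3 / 4) : ℝ)) := by ring
      _ ≤ 2 * C1 * (Real.log X) ^ (k + 1) * 1 := by gcongr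
      _ ≤ 2 * C1 * (Real.log X) ^ (k + 4) := by
          rw [mul_one]
          exact mul_le_mul_of_nonneg_left (pow_le_pow_right₀ hL1 (by omega)) (by positivity)
  have hTII := hII X hX2 U F (fun a => ((ArithmeticFunction.moebius a : ℤ) : ℝ)) u
    (by omega) hFU hU4 (fun a => by
      exact_mod_cast ArithmeticFunction.abs_moebius_le_one) hu
  calc ∑ f ∈ Icc 2 F, ((f : ℝ) / f.totient) * ∑ ψ ∈ prim f, ‖PsiW V k X ψ‖
      ≤ ∑ f ∈ Icc 2 F, ((f : ℝ) / f.totient) * ∑ ψ ∈ prim f,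
        (2 * C1 * f * (Real.log X) ^ (k + 1) * X ^ (-(3 / 4) : ℝ) +
        ‖∑ a ∈ Ioc U (NX V X), ∑ l ∈ Ioc U (NX V X / a),
          (((ArithmeticFunction.moebius a : ℤ) : ℝ) : ℂ) * ((u l : ℝ) : ℂ) *
          (ψ ((a * l : ℕ) : ZMod f) * ((om V k X (a * l) : ℝ) : ℂ))‖) := by
        refine Finset.sum_le_sum fun f hf => ?_
        refine mul_le_mul_of_nonneg_left (Finset.sum_le_sum fun ψ hψ => key f hf ψ hψ)
          (by positivity)
    _ = ∑ f ∈ Icc 2 F, ((f : ℝ) / f.totient) * ∑ ψ ∈ prim f,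
        (2 * C1 * f * (Real.log X) ^ (k + 1) * X ^ (-(3 / 4) : ℝ)) +
        ∑ f ∈ Icc 2 F, ((f : ℝ) / f.totient) * ∑ ψ ∈ prim f,
        ‖∑ a ∈ Ioc U (NX V X), ∑ l ∈ Ioc U (NX V X / a),
          (((ArithmeticFunction.moebius a : ℤ) : ℝ) : ℂ) * ((u l : ℝ) : ℂ) *
          (ψ ((a * l : ℕ) : ZMod f) * ((om V k X (a * l) : ℝ) : ℂ))‖ := by
        rw [← Finset.sum_add_distrib]
        refine Finset.sum_congr rfl fun f _ => ?_
        rw [Finset.sum_add_distrib, mul_add]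
    _ ≤ 2 * C1 * (Real.log X) ^ (k + 4) + C2 * (Real.log X) ^ (k + 4) := by
        refine add_le_add hTI (le_trans ?_ hTII)
        refine Finset.sum_le_sum_of_subset_of_nonneg (Finset.Icc_subset_Icc (by norm_num) le_rfl)
          fun f _ _ => ?_
        exact mul_nonneg (by positivity) (Finset.sum_nonneg fun _ _ => norm_nonneg _)
    _ = (2 * C1 + C2) * (Real.log X) ^ (k + 4) := by ring

end Pool.Agent.Helper14.SW
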